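import Pool.Agent.Helper18.KSZ.NSpec
import Pool.Agent.Helper44.Smooth

/-!
# Project KSZ, N2: coefficients of the mollified zeta function
-/

set_option autoImplicit false

open Finset

namespace Pool.Agent.Helper36.KSZ

open Pool.Agent.Helper18.KSZ Pool.Agent.Helper44

section basic

variable {w : ℝ}

lemma smooth_iff (hw : 0 ≤ w) {n : ℕ} : smooth w n ↔ ∀ p : ℕ, p.Prime → p ∣ n → p ≤ ⌊w⌋₊ := by
  unfold smooth
  constructor
  · intro h p hp hpn; exact (Nat.le_floor_iff hw).mpr (h p hp hpn)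
  · intro h p hp hpn; exact (Nat.le_floor_iff hw).mp (h p hp hpn)

lemma rough_iff (hw : 0 ≤ w) {n : ℕ} : rough w n ↔ ∀ p : ℕ, p.Prime → p ∣ n → ⌊w⌋₊ < p := by
  unfold rough
  constructor
  · intro h p hp hpn; exact (Nat.floor_lt hw).mpr (h p hp hpn)
  · intro h p hp hpn; exact (Nat.floor_lt hw).mp (h p hp hpn)

lemma smooth_sm (hw : 0 ≤ w) (n : ℕ) : smooth w (sm ⌊w⌋₊ n) := by
  rw [smooth_iff hw]
  intro p hp h
  exact (prime_dvd_sm hp h).1

lemma rough_ro (hw : 0 ≤ w) (n : ℕ) : rough w (ro ⌊w⌋₊ n) := by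
  rw [rough_iff hw]
  intro p hp h
  exact (prime_dvd_ro hp h).1

lemma coprime_sr {a m : ℕ} (ha : smooth w a) (hm : rough w m) : Nat.Coprime a m := by
  refine Nat.coprime_of_dvd (fun p hp h1 h2 => ?_)
  exact absurd (ha p hp h1) (not_le.mpr (hm p hp h2))

lemma sm_eq (hw : 0 ≤ w) {a m : ℕ} (ha0 : a ≠ 0) (hm0 : m ≠ 0) (ha : smooth w a) (hm : rough w m) :
    sm ⌊w⌋₊ (a * m) = a ∧ ro ⌊w⌋₊ (a * m) = m := by
  have h1 := sm_unique ha0 hm0 ((smooth_iff hw).mp ha) ((rough_iff hw).mp hm)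
  have h2 : sm ⌊w⌋₊ (a * m) * ro ⌊w⌋₊ (a * m) = a * m := sm_mul_ro (mul_ne_zero ha0 hm0)
  refine ⟨h1.symm, ?_⟩
  rw [← h1] at h2
  exact Nat.eq_of_mul_eq_mul_left (Nat.pos_of_ne_zero ha0) h2

lemma smooth_of_dvd {a b : ℕ} (hb : smooth w b) (h : a ∣ b) : smooth w a :=
  fun p hp hpa => hb p hp (hpa.trans h)

lemma rough_of_dvd {a b : ℕ} (hb : rough w b) (h : a ∣ b) : rough w a :=
  fun p hp hpa => hb p hp (hpa.trans h)

end basic

section coef

variable {K C w : ℝ} {lam : ℕ → ℝ}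

lemma mur_ne {D : ℝ} {d : ℕ} (h : mur w D d ≠ 0) : rough w d ∧ (d : ℝ) ≤ D := by
  unfold mur at h
  split_ifs at h with h1
  · exact h1
  · exact absurd rfl h

lemma abs_mur_le (D : ℝ) (d : ℕ) : |mur w D d| ≤ 1 := by
  unfold mur
  split_ifs with h1
  · have := @ArithmeticFunction.abs_moebius_le_one d
    exact_mod_cast this
  · simp

/-- the convolution has one term only -/
lemma cc_eq (hw : 0 ≤ w) (hS : SW K C w lam) (D : ℝ) {d : ℕ} (hd : d ≠ 0) :
    cc lam w D d = lam (sm ⌊w⌋₊ d) * mur w D (ro ⌊w⌋₊ d) := by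
  unfold cc
  rw [Finset.sum_eq_single (sm ⌊w⌋₊ d, ro ⌊w⌋₊ d)]
  · rintro ⟨a, m⟩ hx hne
    rw [Nat.mem_divisorsAntidiagonal] at hx
    by_contra hcon
    have h1 : lam a ≠ 0 := left_ne_zero_of_mul hcon
    have h2 : mur w D m ≠ 0 := right_ne_zero_of_mul hcon
    have ha := (hS.supp a h1).2.1
    have hm := (mur_ne h2).1
    have ha0 : a ≠ 0 := by rintro rfl; exact hx.2 (by rw [← hx.1]; simp)
    have hm0 : m ≠ 0 := by rintro rfl; exact hx.2 (by rw [← hx.1]; simp)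
    obtain ⟨e1, e2⟩ := sm_eq hw ha0 hm0 ha hm
    have hx1 : a * m = d := hx.1
    rw [hx1] at e1 e2
    exact hne (by rw [e1, e2])
  · intro h
    exact absurd (Nat.mem_divisorsAntidiagonal.mpr ⟨sm_mul_ro hd, hd⟩) h

lemma bet_mul (hS : SW K C w lam) {a m : ℕ} (ha : 0 < a) (hm : 0 < m) (hr : rough w m) :
    bet lam (a * m) = bet lam a := by
  unfold bet
  symm
  refine Finset.sum_subset (Nat.divisors_subset_of_dvd (by positivity) (Dvd.intro _ rfl)) ?_
  intro d hd hda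
  by_contra hne
  have hs := (hS.supp d hne).2.1
  have hcop := coprime_sr hs hr
  rw [Nat.mem_divisors] at hd
  exact hda (Nat.mem_divisors.mpr ⟨hcop.dvd_of_dvd_mul_right hd.1, ha.ne'⟩)

lemma alp_mul {D : ℝ} {a m : ℕ} (ha : 0 < a) (hm : 0 < m) (hs : smooth w a) :
    alp w D (a * m) = alp w D m := by
  unfold alp
  symm
  refine Finset.sum_subset (Nat.divisors_subset_of_dvd (by positivity) (Dvd.intro_left _ rfl)) ?_
  intro d hd hda
  by_contra hne
  have hr := (mur_ne hne).1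
  have hcop := (coprime_sr hs hr).symm
  rw [Nat.mem_divisors] at hd
  exact hda (Nat.mem_divisors.mpr ⟨hcop.dvd_of_dvd_mul_left hd.1, hm.ne'⟩)

lemma sum_moebius_divisors {m : ℕ} (hm : m ≠ 0) :
    ∑ d ∈ m.divisors, (ArithmeticFunction.moebius d : ℝ) = if m = 1 then 1 else 0 := by
  have h : ((ArithmeticFunction.moebius : ArithmeticFunction ℤ) *
      (ArithmeticFunction.zeta : ArithmeticFunction ℤ)) m = (1 : ArithmeticFunction ℤ) m := by
    rw [ArithmeticFunction.moebius_mul_coe_zeta]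
  rw [ArithmeticFunction.coe_mul_zeta_apply, ArithmeticFunction.one_apply] at h
  have h2 : ((∑ d ∈ m.divisors, ArithmeticFunction.moebius d : ℤ) : ℝ) =
      (((if m = 1 then 1 else 0 : ℤ)) : ℝ) := by rw [h]
  push_cast at h2
  exact h2

lemma alp_small {D : ℝ} (hw : 0 ≤ w) {n : ℕ} (hn : 0 < n) (hD : (n : ℝ) ≤ D) :
    alp w D n = if ro ⌊w⌋₊ n = 1 then 1 else 0 := by
  have hdec : sm ⌊w⌋₊ n * ro ⌊w⌋₊ n = n := sm_mul_ro hn.ne'
  have h1 : alp w D n = alp w D (ro ⌊w⌋₊ n) := by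
    conv_lhs => rw [← hdec]
    exact alp_mul (sm_pos _ _) (ro_pos _ _) (smooth_sm hw n)
  rw [h1, ← sum_moebius_divisors (ro_pos _ _).ne']
  unfold alp
  refine Finset.sum_congr rfl (fun d hd => ?_)
  rw [Nat.mem_divisors] at hd
  unfold mur
  rw [if_pos]
  refine ⟨rough_of_dvd (rough_ro hw n) hd.1, le_trans ?_ hD⟩
  have : d ∣ n := hd.1.trans ⟨_, by rw [mul_comm]; exact hdec.symm⟩
  exact_mod_cast Nat.le_of_dvd hn this

lemma abs_alp_le {D : ℝ} {m : ℕ} (hm : 0 < m) : |alp w D m| ≤ 2 ^ m.primeFactors.card := by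
  classical
  have h1 : |alp w D m| ≤ ∑ d ∈ m.divisors, (if Squarefree d then (1 : ℝ) else 0) := by
    unfold alp
    refine (Finset.abs_sum_le_sum_abs _ _).trans (Finset.sum_le_sum (fun d _ => ?_))
    split_ifs with h
    · exact abs_mur_le D d
    · unfold mur
      rw [ArithmeticFunction.moebius_eq_zero_of_not_squarefree h]
      simp
  refine h1.trans ?_
  rw [← Finset.sum_filter, Finset.sum_const, nsmul_eq_mul, mul_one]
  have h2 : (m.divisors.filter Squarefree).card ≤ m.primeFactors.powerset.card := by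
    refine Finset.card_le_card_of_injOn (fun d => d.primeFactors) ?_ ?_
    · intro d hd
      rw [Finset.mem_coe, Finset.mem_filter, Nat.mem_divisors] at hd
      exact Finset.mem_coe.mpr (Finset.mem_powerset.mpr (Nat.primeFactors_mono hd.1.1 hm.ne'))
    · intro d hd d' hd' h
      rw [Finset.mem_coe, Finset.mem_filter] at hd hd'
      have e1 := Nat.prod_primeFactors_of_squarefree hd.2
      have e2 := Nat.prod_primeFactors_of_squarefree hd'.2
      have h' : d.primeFactors = d'.primeFactors := h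
      rw [← e1, ← e2, h']
  rw [Finset.card_powerset] at h2
  exact_mod_cast h2

theorem coeffs : Coeffs := by
  classical
  intro K C w lam hw hS D hD
  have hw0 : 0 ≤ w := by linarith
  refine ⟨?_, ?_, ?_, ?_, ?_, ?_⟩
  · rw [cc_eq hw0 hS D one_ne_zero]
    have h1 : smooth w 1 := fun p hp h => absurd (Nat.dvd_one.mp h) hp.one_lt.ne'
    have h2 : rough w 1 := fun p hp h => absurd (Nat.dvd_one.mp h) hp.one_lt.ne'
    obtain ⟨e1, e2⟩ := sm_eq hw0 one_ne_zero one_ne_zero h1 h2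
    rw [mul_one] at e1 e2
    rw [e1, e2, hS.one, one_mul]
    unfold mur
    rw [if_pos ⟨h2, by simpa using hD⟩]
    simp
  · intro d
    rcases eq_or_ne d 0 with rfl | hd
    · simp [cc]
    · rw [cc_eq hw0 hS D hd, abs_mul]
      exact mul_le_one₀ (hS.abs_le _) (abs_nonneg _) (abs_mur_le D _)
  · intro d hne
    have hd : d ≠ 0 := by rintro rfl; exact hne (by simp [cc])
    rw [cc_eq hw0 hS D hd] at hne
    have h1 := hS.supp _ (left_ne_zero_of_mul hne)
    have h2 := mur_ne (right_ne_zero_of_mul hne)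
    refine ⟨Nat.pos_of_ne_zero hd, ?_⟩
    have hdec : sm ⌊w⌋₊ d * ro ⌊w⌋₊ d = d := sm_mul_ro hd
    calc (d : ℝ) = (sm ⌊w⌋₊ d : ℝ) * (ro ⌊w⌋₊ d : ℝ) := by
          rw [← Nat.cast_mul, hdec]
      _ ≤ w ^ K * D := mul_le_mul h1.2.2 h2.2 (Nat.cast_nonneg _) (le_trans (Nat.cast_nonneg _) h1.2.2)
  · intro n hn
    have hL : ∑ d ∈ n.divisors, cc lam w D d =
        ∑ d ∈ n.divisors, lam (sm ⌊w⌋₊ d) * mur w D (ro ⌊w⌋₊ d) := by
      refine Finset.sum_congr rfl (fun d hd => ?_)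
      exact cc_eq hw0 hS D (Nat.pos_of_mem_divisors hd).ne'
    rw [hL]
    have hR : bet lam n * alp w D n =
        ∑ x ∈ (n.divisors ×ˢ n.divisors).filter (fun x => smooth w x.1 ∧ rough w x.2),
          lam x.1 * mur w D x.2 := by
      unfold bet alp
      rw [Finset.sum_mul_sum, ← Finset.sum_product', Finset.sum_filter_of_ne]
      rintro x - hx
      exact ⟨(hS.supp _ (left_ne_zero_of_mul hx)).2.1, (mur_ne (right_ne_zero_of_mul hx)).1⟩
    rw [hR]
    refine Finset.sum_nbij' (fun d => (sm ⌊w⌋₊ d, ro ⌊w⌋₊ d)) (fun x => x.1 * x.2) ?_ ?_ ?_ ?_ ?_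
    · intro d hd
      have hd0 : d ≠ 0 := (Nat.pos_of_mem_divisors hd).ne'
      rw [Nat.mem_divisors] at hd
      have hdec : sm ⌊w⌋₊ d * ro ⌊w⌋₊ d = d := sm_mul_ro hd0
      rw [Finset.mem_filter, Finset.mem_product, Nat.mem_divisors, Nat.mem_divisors]
      refine ⟨⟨⟨(Dvd.intro _ hdec).trans hd.1, hn.ne'⟩, ⟨(Dvd.intro_left _ hdec).trans hd.1, hn.ne'⟩⟩,
        smooth_sm hw0 d, rough_ro hw0 d⟩
    · intro x hx
      rw [Finset.mem_filter, Finset.mem_product, Nat.mem_divisors, Nat.mem_divisors] at hx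
      exact Nat.mem_divisors.mpr
        ⟨(coprime_sr hx.2.1 hx.2.2).mul_dvd_of_dvd_of_dvd hx.1.1.1 hx.1.2.1, hn.ne'⟩
    · intro d hd
      exact sm_mul_ro (Nat.pos_of_mem_divisors hd).ne'
    · intro x hx
      rw [Finset.mem_filter, Finset.mem_product] at hx
      obtain ⟨e1, e2⟩ := sm_eq hw0 (Nat.pos_of_mem_divisors hx.1.1).ne'
        (Nat.pos_of_mem_divisors hx.1.2).ne' hx.2.1 hx.2.2
      exact Prod.ext e1 e2
    · intro d _; rfl
  · intro n hn hnD
    rw [alp_small hw0 hn hnD]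
    have hdec : sm ⌊w⌋₊ n * ro ⌊w⌋₊ n = n := sm_mul_ro hn.ne'
    by_cases h : ro ⌊w⌋₊ n = 1
    · rw [if_pos h, if_pos]
      rw [h, mul_one] at hdec
      rw [← hdec]
      exact smooth_sm hw0 n
    · rw [if_neg h, if_neg]
      intro hs
      obtain ⟨p, hp, hpd⟩ := Nat.exists_prime_and_dvd h
      have h1 := rough_ro hw0 n p hp hpd
      have h2 := hs p hp (hpd.trans (Dvd.intro_left _ hdec))
      linarith
  · intro a m ha hm hs hr
    exact ⟨bet_mul hS ha hm hr, alp_mul ha hm hs, abs_alp_le hm⟩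

end coef

end Pool.Agent.Helper36.KSZ
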