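import Pool.Agent.Helper18.KSZ.NSpec
import Pool.Agent.Helper44.MertensProd

/-!
# Project KSZ, N3: sums over rough integers
-/

set_option autoImplicit false

open Finset

namespace Pool.Agent.Helper36.KSZ

open Pool.Agent.Helper18.KSZ Pool.Agent.Helper44

/-- `k ^ omega(m) / m` -/
noncomputable def fk (k : ℕ) (m : ℕ) : ℝ := (k : ℝ) ^ m.primeFactors.card / m

lemma fk_one (k : ℕ) : fk k 1 = 1 := by simp [fk]

lemma fk_mul (k : ℕ) {m n : ℕ} (h : Nat.Coprime m n) : fk k (m * n) = fk k m * fk k n := by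
  unfold fk
  rw [h.primeFactors_mul, Finset.card_union_of_disjoint h.disjoint_primeFactors, pow_add]
  push_cast
  rw [mul_div_mul_comm]

lemma fk_nonneg (k m : ℕ) : 0 ≤ fk k m := by unfold fk; positivity

lemma fk_prime_pow (k : ℕ) {p : ℕ} (hp : p.Prime) (n : ℕ) :
    fk k (p ^ (n + 1)) = (k : ℝ) * (1 / (p : ℝ)) * (1 / (p : ℝ)) ^ n := by
  unfold fk
  rw [Nat.primeFactors_prime_pow (Nat.succ_ne_zero n) hp]
  simp only [Finset.card_singleton, pow_one]
  push_cast
  rw [pow_succ, one_div, inv_pow, div_eq_mul_inv, mul_inv]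
  ring

lemma hasSum_fk (k : ℕ) {p : ℕ} (hp : p.Prime) :
    HasSum (fun n : ℕ => fk k (p ^ n)) (1 + (k : ℝ) / ((p : ℝ) - 1)) := by
  have hp1 : (1 : ℝ) < p := by exact_mod_cast hp.one_lt
  have h0 : (0 : ℝ) ≤ 1 / (p : ℝ) := by positivity
  have h1 : 1 / (p : ℝ) < 1 := by rw [div_lt_one (by linarith)]; exact hp1
  have h2 := (hasSum_geometric_of_lt_one h0 h1).mul_left ((k : ℝ) * (1 / (p : ℝ)))
  have h3 : (k : ℝ) * (1 / (p : ℝ)) * (1 - 1 / (p : ℝ))⁻¹ = (k : ℝ) / ((p : ℝ) - 1) := by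
    have hp0 : (p : ℝ) ≠ 0 := by positivity
    have hp2 : (p : ℝ) - 1 ≠ 0 := by linarith
    field_simp
  rw [h3] at h2
  have hg : HasSum (fun n : ℕ => fk k (p ^ (n + 1))) ((k : ℝ) / ((p : ℝ) - 1)) := by
    have : (fun n : ℕ => fk k (p ^ (n + 1))) =
        fun n : ℕ => (k : ℝ) * (1 / (p : ℝ)) * (1 / (p : ℝ)) ^ n := by
      funext n; exact fk_prime_pow k hp n
    rw [this]; exact h2
  have h4 := (hasSum_nat_add_iff (f := fun n => fk k (p ^ n)) 1).mp hg
  simp only [Finset.range_one, Finset.sum_singleton, pow_zero, fk_one] at h4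
  rwa [add_comm] at h4

/-- Euler product bound for a finite set of integers with prime factors in `s` -/
lemma sum_fk_le (k : ℕ) (s T : Finset ℕ) (hs : ∀ p ∈ s, p.Prime)
    (hT : ∀ m ∈ T, ∀ p : ℕ, p.Prime → p ∣ m → p ∈ s) :
    ∑ m ∈ T, fk k m ≤ ∏ p ∈ s, (1 + (k : ℝ) / ((p : ℝ) - 1)) := by
  have h := (EulerProduct.summable_and_hasSum_factoredNumbers_prod_filter_prime_tsum
    (f := fk k) (fk_one k) (fun h => fk_mul k h)
    (fun {p} hp => by
      have := (hasSum_fk k hp).summable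
      refine this.congr ?_
      intro n
      rw [Real.norm_of_nonneg (fk_nonneg k _)]) s).2
  have hprod : ∏ p ∈ s with Nat.Prime p, ∑' n : ℕ, fk k (p ^ n) =
      ∏ p ∈ s, (1 + (k : ℝ) / ((p : ℝ) - 1)) := by
    rw [Finset.filter_true_of_mem hs]
    exact Finset.prod_congr rfl (fun p hp => (hasSum_fk k (hs p hp)).tsum_eq)
  rw [hprod] at h
  have h' : HasSum ((Nat.factoredNumbers s).indicator (fk k))
      (∏ p ∈ s, (1 + (k : ℝ) / ((p : ℝ) - 1))) := hasSum_subtype_iff_indicator.mp h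
  have h5 := sum_le_hasSum T (fun i _ => Set.indicator_nonneg (fun m _ => fk_nonneg k m) i) h'
  refine le_trans (le_of_eq ?_) h5
  refine Finset.sum_congr rfl (fun m hm => ?_)
  rw [Set.indicator_of_mem (Nat.mem_factoredNumbers'.mpr (hT m hm))]

lemma prod_ratio : ∃ C : ℝ, 0 < C ∧ ∀ w Y : ℝ, 2 ≤ w → w ≤ Y →
    ∏ p ∈ primesUpTo Y \ primesUpTo w, (1 - (1 : ℝ) / p)⁻¹ ≤ C * (Real.log Y / Real.log w) := by
  obtain ⟨c, C, hc, hC, h⟩ := mertens_prod
  refine ⟨C / c, by positivity, ?_⟩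
  intro w Y hw hY
  have hlw : 0 < Real.log w := Real.log_pos (by linarith)
  have hlY : 0 < Real.log Y := Real.log_pos (by linarith)
  have hsub : primesUpTo w ⊆ primesUpTo Y := by
    intro q hq
    rw [mem_primesUpTo (by linarith)] at hq ⊢
    exact ⟨hq.1, le_trans hq.2 hY⟩
  have h1 := (h Y (by linarith)).1
  have h2 := (h w hw).2
  have hpos : ∀ s : Finset ℕ, s ⊆ primesUpTo Y → 0 < ∏ q ∈ s, (1 - (1 : ℝ) / q) := by
    intro s hs
    refine Finset.prod_pos (fun q hq => ?_)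
    have := hs hq
    rw [mem_primesUpTo (by linarith)] at this
    have hq2 : (2 : ℝ) ≤ q := by exact_mod_cast this.1.two_le
    have : (1 : ℝ) / q ≤ 1 / 2 := one_div_le_one_div_of_le (by norm_num) hq2
    linarith
  have hmul := Finset.prod_sdiff (f := fun q : ℕ => (1 - (1 : ℝ) / q)) hsub
  have hd := hpos (primesUpTo Y \ primesUpTo w) Finset.sdiff_subset
  have hwp := hpos (primesUpTo w) hsub
  rw [Finset.prod_inv_distrib, inv_le_comm₀ hd (by positivity)]
  -- lower bound for the product over the difference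
  have h3 : c / Real.log Y ≤ (∏ q ∈ primesUpTo Y \ primesUpTo w, (1 - (1 : ℝ) / q)) *
      (C / Real.log w) := by
    calc c / Real.log Y ≤ ∏ q ∈ primesUpTo Y, (1 - (1 : ℝ) / q) := h1
      _ = (∏ q ∈ primesUpTo Y \ primesUpTo w, (1 - (1 : ℝ) / q)) *
          ∏ q ∈ primesUpTo w, (1 - (1 : ℝ) / q) := hmul.symm
      _ ≤ _ := mul_le_mul_of_nonneg_left h2 hd.le
  have h4 : (C / c * (Real.log Y / Real.log w))⁻¹ = (c / Real.log Y) / (C / Real.log w) := by
    field_simp
  rw [h4, div_le_iff₀ (by positivity)]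
  exact h3

theorem roughSums : RoughSums := by
  classical
  obtain ⟨C, hC, hR⟩ := prod_ratio
  have key : ∀ (k : ℕ) (w Y : ℝ), 2 ≤ w → w ≤ Y →
      ∑ m ∈ (Icc 1 ⌊Y⌋₊).filter (rough w), fk k m ≤ (C * (Real.log Y / Real.log w)) ^ k := by
    intro k w Y hw hY
    set s := primesUpTo Y \ primesUpTo w with hs
    have hsp : ∀ p ∈ s, p.Prime := by
      intro p hp
      rw [hs, Finset.mem_sdiff, mem_primesUpTo (by linarith)] at hp
      exact hp.1.1
    have h1 := sum_fk_le k s ((Icc 1 ⌊Y⌋₊).filter (rough w)) hsp (by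
      intro m hm p hp hpm
      rw [Finset.mem_filter, Finset.mem_Icc] at hm
      rw [hs, Finset.mem_sdiff, mem_primesUpTo (by linarith), mem_primesUpTo (by linarith)]
      have hm1 : (m : ℝ) ≤ Y := (Nat.le_floor_iff (by linarith)).mp hm.1.2
      have hpm' : (p : ℝ) ≤ m := by exact_mod_cast Nat.le_of_dvd (by omega) hpm
      exact ⟨⟨hp, by linarith⟩, fun h => absurd h.2 (not_le.mpr (hm.2 p hp hpm))⟩)
    refine h1.trans ?_
    have h2 : ∏ p ∈ s, (1 + (k : ℝ) / ((p : ℝ) - 1)) ≤ ∏ p ∈ s, ((1 - (1 : ℝ) / p)⁻¹) ^ k := by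
      refine Finset.prod_le_prod (fun p hp => ?_) (fun p hp => ?_)
      · have : (2 : ℝ) ≤ p := by exact_mod_cast (hsp p hp).two_le
        have : 0 < (p : ℝ) - 1 := by linarith
        positivity
      · have hp2 : (2 : ℝ) ≤ p := by exact_mod_cast (hsp p hp).two_le
        have hp1 : 0 < (p : ℝ) - 1 := by linarith
        have hp0 : (p : ℝ) ≠ 0 := by positivity
        have h3 : (1 - (1 : ℝ) / p)⁻¹ = 1 + 1 / ((p : ℝ) - 1) := by
          have : (p : ℝ) - 1 ≠ 0 := hp1.ne'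
          field_simp
          ring
        rw [h3]
        have h4 := one_add_mul_le_pow (a := 1 / ((p : ℝ) - 1))
          (le_trans (by norm_num) (by positivity : (0 : ℝ) ≤ 1 / ((p : ℝ) - 1))) k
        rw [mul_one_div] at h4
        exact h4
    refine h2.trans ?_
    rw [Finset.prod_pow]
    refine pow_le_pow_left₀ ?_ (hR w Y hw hY) k
    refine Finset.prod_nonneg (fun p hp => ?_)
    have hp2 : (2 : ℝ) ≤ p := by exact_mod_cast (hsp p hp).two_le
    have : (1 : ℝ) / p ≤ 1 / 2 := one_div_le_one_div_of_le (by norm_num) hp2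
    exact inv_nonneg.mpr (by linarith)
  refine ⟨max C (C ^ 4), lt_max_of_lt_left hC, ?_⟩
  intro w Y hw hY
  have hlw : 0 < Real.log w := Real.log_pos (by linarith)
  have hlY : 0 < Real.log Y := Real.log_pos (by linarith)
  constructor
  · have h := key 1 w Y hw hY
    rw [pow_one] at h
    have h5 : ∑ m ∈ (Icc 1 ⌊Y⌋₊).filter (rough w), 1 / (m : ℝ) =
        ∑ m ∈ (Icc 1 ⌊Y⌋₊).filter (rough w), fk 1 m := by
      refine Finset.sum_congr rfl (fun m _ => ?_)
      simp [fk]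
    rw [h5]
    exact h.trans (mul_le_mul_of_nonneg_right (le_max_left _ _) (by positivity))
  · have h := key 4 w Y hw hY
    rw [mul_pow] at h
    have h5 : ∑ m ∈ (Icc 1 ⌊Y⌋₊).filter (rough w), 4 ^ m.primeFactors.card / (m : ℝ) =
        ∑ m ∈ (Icc 1 ⌊Y⌋₊).filter (rough w), fk 4 m := by
      refine Finset.sum_congr rfl (fun m _ => ?_)
      simp [fk]
    rw [h5]
    exact h.trans (mul_le_mul_of_nonneg_right (le_max_right _ _) (by positivity))

end Pool.Agent.Helper36.KSZ
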