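import Pool.Agent.Helper36.KSZ.N2

/-!
# Project KSZ, N4: first factor of the duality argument
-/

set_option autoImplicit false

open Finset

namespace Pool.Agent.Helper36.KSZ

open Pool.Agent.Helper18.KSZ Pool.Agent.Helper44

lemma sum_bet_smooth {K C w : ℝ} {lam : ℕ → ℝ} (hS : SW K C w lam) (A : Finset ℕ)
    (hA : ∀ a ∈ A, 0 < a ∧ smooth w a) : ∑ a ∈ A, bet lam a / (a : ℝ) ≤ 9 / 8 := by
  classical
  have h1 := hS.small 0 le_rfl (by rw [Real.rpow_zero]; norm_num) (A.erase 1) (by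
    intro n hn
    rw [Finset.mem_erase] at hn
    have := hA n hn.2
    exact ⟨by omega, this.2⟩)
  have h2 : ∑ a ∈ A.erase 1, bet lam a / (a : ℝ) ≤ 1 / 8 := by
    refine le_trans (le_of_eq (Finset.sum_congr rfl (fun n _ => ?_))) h1
    rw [zero_sub, Real.rpow_neg_one, div_eq_mul_inv]
  by_cases h : 1 ∈ A
  · rw [← Finset.add_sum_erase A _ h]
    have h3 : bet lam 1 = 1 := by simp [bet, hS.one]
    rw [h3, Nat.cast_one, div_one]
    linarith
  · rw [← Finset.erase_eq_of_notMem h]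
    linarith

theorem firstFactor (h3 : RoughSums) : FirstFactor := by
  classical
  obtain ⟨C3, hC3, hR⟩ := h3
  intro K C _ _
  refine ⟨9 / 8 * C3, by positivity, ?_⟩
  intro w lam hw hS D Y hD hY
  have hw0 : 0 ≤ w := by linarith
  obtain ⟨hR1, hR2⟩ := hR w Y hw hY
  have hlw : 0 < Real.log w := Real.log_pos (by linarith)
  have hlY : 0 < Real.log Y := Real.log_pos (by linarith)
  -- general inequality
  have key : ∀ (g : ℕ → ℝ) (B : ℝ), (∀ m, 0 ≤ g m) →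
      (∀ n, 0 < n → g n = g (ro ⌊w⌋₊ n)) →
      ∑ m ∈ (Icc 1 ⌊Y⌋₊).filter (rough w), g m / (m : ℝ) ≤ B →
      ∑ n ∈ Icc 1 ⌊Y⌋₊, bet lam n * g n / (n : ℝ) ≤ 9 / 8 * B := by
    intro g B hg hgr hB
    set A := (Icc 1 ⌊Y⌋₊).filter (smooth w) with hA
    set M := (Icc 1 ⌊Y⌋₊).filter (rough w) with hM
    let φ : ℕ → ℕ × ℕ := fun n => (sm ⌊w⌋₊ n, ro ⌊w⌋₊ n)
    let F : ℕ × ℕ → ℝ := fun x => bet lam x.1 / (x.1 : ℝ) * (g x.2 / (x.2 : ℝ))
    have hinj : Set.InjOn φ (Icc 1 ⌊Y⌋₊ : Finset ℕ) := by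
      intro n hn n' hn' h
      rw [Finset.mem_coe, Finset.mem_Icc] at hn hn'
      have e1 : sm ⌊w⌋₊ n = sm ⌊w⌋₊ n' := congrArg Prod.fst h
      have e2 : ro ⌊w⌋₊ n = ro ⌊w⌋₊ n' := congrArg Prod.snd h
      rw [← sm_mul_ro (y := ⌊w⌋₊) (show n ≠ 0 by omega),
        ← sm_mul_ro (y := ⌊w⌋₊) (show n' ≠ 0 by omega), e1, e2]
    have hstep : ∑ n ∈ Icc 1 ⌊Y⌋₊, bet lam n * g n / (n : ℝ) =
        ∑ n ∈ Icc 1 ⌊Y⌋₊, F (φ n) := by
      refine Finset.sum_congr rfl (fun n hn => ?_)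
      rw [Finset.mem_Icc] at hn
      have hn0 : n ≠ 0 := by omega
      have hdec : sm ⌊w⌋₊ n * ro ⌊w⌋₊ n = n := sm_mul_ro hn0
      have e1 : bet lam n = bet lam (sm ⌊w⌋₊ n) := by
        conv_lhs => rw [← hdec]
        exact bet_mul hS (sm_pos _ _) (ro_pos _ _) (rough_ro hw0 n)
      have e3 : (n : ℝ) = (sm ⌊w⌋₊ n : ℝ) * (ro ⌊w⌋₊ n : ℝ) := by
        rw [← Nat.cast_mul, hdec]
      change _ = bet lam (sm ⌊w⌋₊ n) / (sm ⌊w⌋₊ n : ℝ) * (g (ro ⌊w⌋₊ n) / (ro ⌊w⌋₊ n : ℝ))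
      rw [e1, hgr n (by omega)]
      conv_lhs => rw [e3]
      rw [mul_div_mul_comm]
    rw [hstep, ← Finset.sum_image (f := F) hinj]
    have hsub : (Icc 1 ⌊Y⌋₊).image φ ⊆ A ×ˢ M := by
      intro x hx
      rw [Finset.mem_image] at hx
      obtain ⟨n, hn, rfl⟩ := hx
      rw [Finset.mem_Icc] at hn
      have hn0 : n ≠ 0 := by omega
      have hdec : sm ⌊w⌋₊ n * ro ⌊w⌋₊ n = n := sm_mul_ro hn0
      have l1 : sm ⌊w⌋₊ n ≤ n := Nat.le_of_dvd (by omega) (Dvd.intro _ hdec)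
      have l2 : ro ⌊w⌋₊ n ≤ n := Nat.le_of_dvd (by omega) (Dvd.intro_left _ hdec)
      rw [Finset.mem_product, hA, hM, Finset.mem_filter, Finset.mem_filter, Finset.mem_Icc,
        Finset.mem_Icc]
      exact ⟨⟨⟨sm_pos _ _, l1.trans hn.2⟩, smooth_sm hw0 n⟩,
        ⟨⟨ro_pos _ _, l2.trans hn.2⟩, rough_ro hw0 n⟩⟩
    have hbn : ∀ x ∈ A ×ˢ M, 0 ≤ F x := by
      intro x hx
      rw [Finset.mem_product, hA, Finset.mem_filter, Finset.mem_Icc] at hx
      exact mul_nonneg (div_nonneg (hS.nonneg _ hx.1.1.1) (Nat.cast_nonneg _))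
        (div_nonneg (hg _) (Nat.cast_nonneg _))
    refine (Finset.sum_le_sum_of_subset_of_nonneg hsub (fun x hx _ => hbn x hx)).trans ?_
    have hprod : ∑ x ∈ A ×ˢ M, F x =
        (∑ a ∈ A, bet lam a / (a : ℝ)) * ∑ m ∈ M, g m / (m : ℝ) := by
      rw [Finset.sum_product, Finset.sum_mul_sum]
    rw [hprod]
    refine mul_le_mul (sum_bet_smooth hS A ?_) hB ?_ (by norm_num)
    · intro a ha
      rw [hA, Finset.mem_filter, Finset.mem_Icc] at ha
      exact ⟨ha.1.1, ha.2⟩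
    · exact Finset.sum_nonneg (fun m _ => div_nonneg (hg m) (Nat.cast_nonneg _))
  constructor
  · have h := key (fun _ => 1) (C3 * (Real.log Y / Real.log w)) (fun _ => zero_le_one)
      (fun _ _ => rfl) hR1
    simp only [mul_one] at h
    linarith
  · have h := key (fun n => alp w D n ^ 2) (C3 * (Real.log Y / Real.log w) ^ 4)
      (fun _ => sq_nonneg _) (by
        intro n hn
        have hdec : sm ⌊w⌋₊ n * ro ⌊w⌋₊ n = n := sm_mul_ro hn.ne'
        have : alp w D n = alp w D (ro ⌊w⌋₊ n) := by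
          conv_lhs => rw [← hdec]
          exact alp_mul (sm_pos _ _) (ro_pos _ _) (smooth_sm hw0 n)
        rw [this]) (by
        refine le_trans (Finset.sum_le_sum (fun m hm => ?_)) hR2
        rw [Finset.mem_filter, Finset.mem_Icc] at hm
        refine div_le_div_of_nonneg_right ?_ (Nat.cast_nonneg _)
        have h1 := abs_alp_le (w := w) (D := D) (show 0 < m by omega)
        have h2 : alp w D m ^ 2 ≤ (2 ^ m.primeFactors.card) ^ 2 := by
          rw [← sq_abs]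
          exact pow_le_pow_left₀ (abs_nonneg _) h1 2
        refine h2.trans (le_of_eq ?_)
        rw [← pow_mul, mul_comm, pow_mul]
        norm_num)
    linarith

end Pool.Agent.Helper36.KSZ
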